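import Mathlib

/-!
# Collapsing the complement of an open set

Let `h` be a `1`-Lipschitz function on the metric space `M`. The points where `h` is not positive are
identified to one point; `Col h` is the quotient, with the metric
`min (dist p q) (h p + h q)`.
-/

set_option autoImplicit false

open Metric Set Filter Topology

namespace Pool.Agent.Q146.FVC

/-- the points of `M` with `h > 0`, and one more point `far` -/
inductive Col {M : Type} (h : M → ℝ) : Type
  | far : Col h
  | near (q : M) (hq : 0 < h q) : Col h

variable {M : Type} [MetricSpace M] {h : M → ℝ}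

/-- the distance on `Col h` -/
noncomputable def dC (h : M → ℝ) : Col h → Col h → ℝ
  | .near p _, .near q _ => min (dist p q) (h p + h q)
  | .near p _, .far => h p
  | .far, .near q _ => h q
  | .far, .far => 0

theorem lip_le (hh : LipschitzWith 1 h) (p q : M) : h p ≤ dist p q + h q := by
  have h1 := hh.dist_le_mul p q
  rw [NNReal.coe_one, one_mul, Real.dist_eq] at h1
  have h2 := le_abs_self (h p - h q)
  linarith

theorem dC_triangle (hh : LipschitzWith 1 h) (x y z : Col h) :
    dC h x z ≤ dC h x y + dC h y z := by
  rcases x with _ | ⟨p, hp⟩ <;> rcases y with _ | ⟨q, hq⟩ <;> rcases z with _ | ⟨r, hr⟩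
  · simp [dC]
  · simp [dC]
  · simp only [dC]; linarith
  · simp only [dC]
    have h1 := lip_le hh r q
    rw [dist_comm] at h1
    rcases le_total (dist q r) (h q + h r) with h2 | h2
    · rw [min_eq_left h2]; linarith
    · rw [min_eq_right h2]; linarith
  · simp [dC]
  · simp only [dC]
    exact min_le_right _ _
  · simp only [dC]
    have h1 := lip_le hh p q
    rcases le_total (dist p q) (h p + h q) with h2 | h2
    · rw [min_eq_left h2]; linarith
    · rw [min_eq_right h2]; linarith
  · simp only [dC]
    have h1 := lip_le hh p q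
    have h3 := lip_le hh r q
    rw [dist_comm] at h3
    rcases le_total (dist p q) (h p + h q) with h2 | h2
    · rcases le_total (dist q r) (h q + h r) with h4 | h4
      · rw [min_eq_left h2, min_eq_left h4]
        exact (min_le_left _ _).trans (dist_triangle _ _ _)
      · rw [min_eq_left h2, min_eq_right h4]
        exact (min_le_right _ _).trans (by linarith)
    · rcases le_total (dist q r) (h q + h r) with h4 | h4
      · rw [min_eq_right h2, min_eq_left h4]
        exact (min_le_right _ _).trans (by linarith)
      · rw [min_eq_right h2, min_eq_right h4]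
        exact (min_le_right _ _).trans (by linarith)

/-- the metric space `Col h` -/
@[instance_reducible]
noncomputable def colMetric (hh : LipschitzWith 1 h) : MetricSpace (Col h) where
  dist := dC h
  dist_self := by
    rintro (_ | ⟨p, hp⟩)
    · rfl
    · simp only [dC, dist_self]
      exact min_eq_left (by linarith)
  dist_comm := by
    rintro (_ | ⟨p, hp⟩) (_ | ⟨q, hq⟩)
    · rfl
    · rfl
    · rfl
    · simp only [dC]
      rw [dist_comm, add_comm]
  dist_triangle := dC_triangle hh
  eq_of_dist_eq_zero := by
    rintro (_ | ⟨p, hp⟩) (_ | ⟨q, hq⟩) h0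
    · rfl
    · change h q = 0 at h0
      exact absurd h0 hq.ne'
    · change h p = 0 at h0
      exact absurd h0 hp.ne'
    · change min (dist p q) (h p + h q) = 0 at h0
      have h1 : dist p q = 0 := by
        rcases min_choice (dist p q) (h p + h q) with h2 | h2
        · rw [h2] at h0; exact h0
        · rw [h2] at h0; linarith
      have h2 : p = q := dist_eq_zero.1 h1
      subst h2
      rfl

/-- the quotient map -/
noncomputable def pj (h : M → ℝ) (q : M) : Col h := by
  classical
  exact if hq : 0 < h q then Col.near q hq else Col.far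

theorem pj_pos {q : M} (hq : 0 < h q) : pj h q = Col.near q hq := by
  unfold pj
  rw [dif_pos hq]

theorem pj_neg {q : M} (hq : ¬ 0 < h q) : pj h q = Col.far := by
  unfold pj
  rw [dif_neg hq]

theorem dC_pj_le (hh : LipschitzWith 1 h) (p q : M) : dC h (pj h p) (pj h q) ≤ dist p q := by
  by_cases hp : 0 < h p <;> by_cases hq : 0 < h q
  · rw [pj_pos hp, pj_pos hq]
    exact min_le_left _ _
  · rw [pj_pos hp, pj_neg hq]
    have := lip_le hh p q
    change h p ≤ dist p q
    linarith
  · rw [pj_neg hp, pj_pos hq]
    have := lip_le hh q p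
    rw [dist_comm] at this
    change h q ≤ dist p q
    linarith
  · rw [pj_neg hp, pj_neg hq]
    change (0 : ℝ) ≤ dist p q
    exact dist_nonneg

theorem le_dC_pj (p q : M) {a : ℝ} (h1 : a ≤ dist p q) (h2 : a ≤ h p + h q) (hp : 0 < h p)
    (hq : 0 < h q) : a ≤ dC h (pj h p) (pj h q) := by
  rw [pj_pos hp, pj_pos hq]
  exact le_min h1 h2

theorem dC_far_le {q : M} {a : ℝ} (ha : 0 ≤ a) (hq : h q ≤ a) : dC h (pj h q) Col.far ≤ a := by
  by_cases hp : 0 < h q
  · rw [pj_pos hp]; exact hq
  · rw [pj_neg hp]; exact ha

theorem pj_surj (x : Col h) : x = Col.far ∨ ∃ q, 0 < h q ∧ pj h q = x := by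
  rcases x with _ | ⟨q, hq⟩
  · exact Or.inl rfl
  · exact Or.inr ⟨q, hq, pj_pos hq⟩

theorem pj_lip (hh : LipschitzWith 1 h) :
    @LipschitzWith M (Col h) _ (colMetric hh).toPseudoMetricSpace.toPseudoEMetricSpace 1 (pj h) :=
  @LipschitzWith.of_dist_le_mul M (Col h) _ (colMetric hh).toPseudoMetricSpace 1 (pj h)
    fun p q => by
      rw [NNReal.coe_one, one_mul]
      exact dC_pj_le hh p q

theorem col_compact (hh : LipschitzWith 1 h) (hc : ∀ δ : ℝ, 0 < δ → IsCompact {q | δ ≤ h q}) :
    @CompactSpace (Col h) (colMetric hh).toPseudoMetricSpace.toUniformSpace.toTopologicalSpace := by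
  let _i := colMetric hh
  refine ⟨?_⟩
  rw [isCompact_iff_ultrafilter_le_nhds]
  intro F _
  by_cases hF : ∀ δ : ℝ, 0 < δ → ball (Col.far : Col h) δ ∈ F
  · refine ⟨Col.far, mem_univ _, ?_⟩
    intro s hs
    obtain ⟨δ, hδ, hb⟩ := Metric.mem_nhds_iff.1 hs
    exact mem_of_superset (hF δ hδ) hb
  · push Not at hF
    obtain ⟨δ, hδ, hb⟩ := hF
    have hcont : Continuous (pj h) := (pj_lip hh).continuous
    have h1 : IsCompact (pj h '' {q | δ ≤ h q}) := (hc δ hδ).image hcont
    have h2 : pj h '' {q | δ ≤ h q} ∈ F := by
      rcases F.mem_or_compl_mem (ball (Col.far : Col h) δ) with h3 | h3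
      · exact absurd h3 hb
      · refine mem_of_superset h3 ?_
        intro x hx
        rcases pj_surj x with rfl | ⟨q, hq, rfl⟩
        · exact absurd (mem_ball_self hδ) hx
        · refine ⟨q, ?_, rfl⟩
          by_contra hcon
          apply hx
          rw [mem_ball, pj_pos hq]
          change h q < δ
          rw [mem_setOf_eq, not_le] at hcon
          exact hcon
    obtain ⟨x, _, hx⟩ := isCompact_iff_ultrafilter_le_nhds.1 h1 F (le_principal_iff.2 h2)
    exact ⟨x, mem_univ _, hx⟩

end Pool.Agent.Q146.FVC
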