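import Pool.Agent.Q146.FVC.Space
import Pool.Agent.TH253.FV.Fin
import Pool.Agent.H241R3.FV.Asm
import Pool.Agent.H241R3.FV.TEven
import Pool.Agent.H241R3.FV.TGen
import Pool.Agent.H241R3.FV.TParity
import Pool.Agent.H241R3.FV.TCoverT

/-!
# Collapsing the far part of a filling
-/

set_option autoImplicit false

open MeasureTheory Metric Set Filter Topology InnerProductGeometry

namespace Pool.Agent.Q146.FVC

open Pool.Agent.H241R3.FV

variable {M : Type} [MetricSpace M] {h : M → ℝ}

/-- the chart of the collapsed space -/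
noncomputable def colChart (hh : LipschitzWith 1 h) {n : ℕ} (C : RChart n M) :
    @RChart n (Col h) (colMetric hh) :=
  letI := colMetric hh
  { U := C.U
    isOpen_U := C.isOpen_U
    D := C.D ∩ {p | 0 < h (C.map p)}
    meas_D := by
      have h1 : IsOpen (C.U ∩ C.map ⁻¹' {q | 0 < h q}) :=
        (Pool.Agent.W716.FV.Asm.map_contOn C).isOpen_inter_preimage C.isOpen_U
          (isOpen_lt continuous_const hh.continuous)
      have e : C.D ∩ {p | 0 < h (C.map p)} = C.D ∩ (C.U ∩ C.map ⁻¹' {q | 0 < h q}) := by
        ext p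
        constructor
        · rintro ⟨h1, h2⟩
          exact ⟨h1, C.D_sub h1, h2⟩
        · rintro ⟨h1, _, h2⟩
          exact ⟨h1, h2⟩
      rw [e]
      exact C.meas_D.inter h1.measurableSet
    D_sub := fun p hp => C.D_sub hp.1
    map := fun p => pj h (C.map p)
    G := C.G
    cont_G := C.cont_G
    pos_G := C.pos_G
    dist_le := fun x y hxy => (dC_pj_le hh _ _).trans (C.dist_le x y hxy) }

/-- the chart of the far point -/
noncomputable def farChart (hh : LipschitzWith 1 h) (n : ℕ) :
    @RChart n (Col h) (colMetric hh) :=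
  letI := colMetric hh
  { U := univ
    isOpen_U := isOpen_univ
    D := {0}
    meas_D := measurableSet_singleton _
    D_sub := fun p _ => mem_univ p
    map := fun _ => Col.far
    G := fun _ => 1
    cont_G := continuousOn_const
    pos_G := fun _ _ => Matrix.PosDef.one
    dist_le := fun x y _ => by
      rw [dist_self]
      refine intervalIntegral.integral_nonneg zero_le_one fun t _ => ?_
      unfold gnorm
      exact Real.sqrt_nonneg _ }

/-- the filling with the far part collapsed to a point -/
noncomputable def colFill (hh : LipschitzWith 1 h) {d : ℕ} (S : Fill d M) :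
    @Fill d (Col h) (colMetric hh) :=
  letI := colMetric hh
  { ι := Unit ⊕ S.ι
    countable := by
      have := S.countable
      infer_instance
    chart := Sum.elim (fun _ => farChart hh (d + 1)) (fun i => colChart hh (S.chart i))
    bd := fun x => pj h (S.bd x)
    cover := by
      intro q
      rcases pj_surj q with rfl | ⟨q, hq, rfl⟩
      · right
        exact ⟨Sum.inl (), 0, rfl, rfl⟩
      · rcases S.cover q with ⟨x, hx⟩ | ⟨i, p, hp, hpq⟩
        · left
          exact ⟨x, by rw [hx]⟩
        · right
          refine ⟨Sum.inr i, p, ⟨hp, ?_⟩, ?_⟩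
          · change 0 < h ((S.chart i).map p)
            rw [hpq]; exact hq
          · change pj h ((S.chart i).map p) = pj h q
            rw [hpq] }

/-- the volume of the set of the points of a filling with `h > 0` -/
noncomputable def posVol {d : ℕ} (S : Fill d M) (h : M → ℝ) : ENNReal :=
  ∑' i, ∫⁻ p in (S.chart i).D ∩ {p | 0 < h ((S.chart i).map p)},
    ENNReal.ofReal √((S.chart i).G p).det

theorem vol_colFill (hh : LipschitzWith 1 h) {d : ℕ} (S : Fill d M) :
    @Fill.vol d (Col h) (colMetric hh) (colFill hh S) = posVol S h := by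
  have e : @Fill.vol d (Col h) (colMetric hh) (colFill hh S) =
      ∑' i : Unit ⊕ S.ι, Sum.elim (fun _ : Unit => ∫⁻ p in ({0} : Set (E (d + 1))),
        ENNReal.ofReal √((1 : Matrix (Fin (d + 1)) (Fin (d + 1)) ℝ)).det)
        (fun i => ∫⁻ p in (S.chart i).D ∩ {p | 0 < h ((S.chart i).map p)},
          ENNReal.ofReal √((S.chart i).G p).det) i := by
    unfold Fill.vol
    refine tsum_congr fun i => ?_
    rcases i with i | i <;> rfl
  rw [e, Summable.tsum_sum ENNReal.summable ENNReal.summable]
  simp only [Sum.elim_inl, Sum.elim_inr]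
  have h0 : ∫⁻ p in ({0} : Set (E (d + 1))),
      ENNReal.ofReal √((1 : Matrix (Fin (d + 1)) (Fin (d + 1)) ℝ)).det = 0 := by
    have h1 : (volume : Measure (E (d + 1))) {0} = 0 := measure_singleton 0
    rw [Measure.restrict_eq_zero.2 h1, lintegral_zero_measure]
  simp only [h0, tsum_zero, zero_add]
  rfl

theorem nonShort_col (hh : LipschitzWith 1 h) {d : ℕ} (S : Fill d M) (hS : S.NonShort)
    (hx : ∀ x y : Sph (d + 1), angle (x : E (d + 1)) (y : E (d + 1)) ≤ h (S.bd x) + h (S.bd y)) :
    @Fill.NonShort d (Col h) (colMetric hh) (colFill hh S) := by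
  intro x y
  change angle (x : E (d + 1)) (y : E (d + 1)) ≤ dC h (pj h (S.bd x)) (pj h (S.bd y))
  have h1 := hS x y
  have h2 := hx x y
  have hn : ∀ x : Sph (d + 1), 0 ≤ h (S.bd x) := by
    intro x
    have h3 := hx x x
    have h4 : 0 ≤ angle (x : E (d + 1)) (x : E (d + 1)) := angle_nonneg _ _
    linarith
  by_cases hp : 0 < h (S.bd x) <;> by_cases hq : 0 < h (S.bd y)
  · exact le_dC_pj _ _ h1 h2 hp hq
  · rw [pj_pos hp, pj_neg hq]
    change angle (x : E (d + 1)) (y : E (d + 1)) ≤ h (S.bd x)
    linarith [not_lt.1 hq]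
  · rw [pj_neg hp, pj_pos hq]
    change angle (x : E (d + 1)) (y : E (d + 1)) ≤ h (S.bd y)
    linarith [not_lt.1 hp]
  · rw [pj_neg hp, pj_neg hq]
    change angle (x : E (d + 1)) (y : E (d + 1)) ≤ 0
    linarith [not_lt.1 hp, not_lt.1 hq]

end Pool.Agent.Q146.FVC
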