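import Pool.Agent.Q146.FVC.Tri

/-!
# The volume of the part of a filling that matters
-/

set_option autoImplicit false

open MeasureTheory Metric Set Filter Topology InnerProductGeometry

namespace Pool.Agent.Q146.FVC

open Pool.Agent.H241R3.FV

/-- `h` is a `1`-Lipschitz function on the filling with
`h (bd x) + h (bd y) ≥ angle x y` for all points `x`, `y` of the sphere. -/
structure Height {d : ℕ} {M : Type} [MetricSpace M] (S : Fill d M) (h : M → ℝ) : Prop where
  lip : LipschitzWith 1 h
  sum : ∀ x y : Sph (d + 1), angle (x : E (d + 1)) (y : E (d + 1)) ≤ h (S.bd x) + h (S.bd y)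

/-- The sets `{h ≥ δ}`, `δ > 0`, are compact, and there are arbitrarily fine finite triangulations
of parts of `M` whose far faces are in `{h < ε}`. -/
structure NearCompact {d : ℕ} {M : Type} [MetricSpace M] (S : Fill d M) (h : M → ℝ) : Prop where
  cpt : ∀ δ : ℝ, 0 < δ → IsCompact {q | δ ≤ h q}
  tri : ∀ ε : ℝ, 0 < ε → Nonempty (PTriang S.bd h ε)

section
variable {d : ℕ} {M : Type} [MetricSpace M] {S : Fill d M} {h : M → ℝ}

theorem triangulated_col (hh : Height S h) (hc : NearCompact S h) :
    @Fill.Triangulated d (Col h) (colMetric hh.lip) (colFill hh.lip S) := by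
  intro ε hε
  obtain ⟨P⟩ := hc.tri (ε / 2) (by positivity)
  obtain ⟨T⟩ := triang_col hh.lip P (by positivity)
  rw [show 2 * (ε / 2) = ε by ring] at T
  exact ⟨T⟩

/-- **the reduction** -/
theorem reduce {C : ENNReal}
    (H : ∀ (M : Type) [MetricSpace M] [CompactSpace M] (S : Fill d M), S.NonShort →
      S.Triangulated → C ≤ S.vol)
    (hS : S.NonShort) (hh : Height S h) (hc : NearCompact S h) : C ≤ posVol S h := by
  have h1 := @H (Col h) (colMetric hh.lip) (col_compact hh.lip hc.cpt) (colFill hh.lip S)
    (nonShort_col hh.lip S hS hh.sum) (triangulated_col hh hc)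
  rwa [vol_colFill] at h1

theorem reduceNR {C : ENNReal}
    (H : ∀ (M : Type) [MetricSpace M] [CompactSpace M] (S : Fill d M), S.NonShort →
      S.NoRetraction → C ≤ S.vol)
    (hS : S.NonShort) (hh : Height S h) (hc : ∀ δ : ℝ, 0 < δ → IsCompact {q | δ ≤ h q})
    (hR : S.NoRetraction) : C ≤ posVol S h := by
  have h1 := @H (Col h) (colMetric hh.lip) (col_compact hh.lip hc) (colFill hh.lip S)
    (nonShort_col hh.lip S hS hh.sum) (by
      letI := colMetric hh.lip
      rintro ⟨r, hr, hr'⟩
      exact hR ⟨fun q => r (pj h q), hr.comp (pj_lip hh.lip).continuous, hr'⟩)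
  rwa [vol_colFill] at h1

/-- compact triangulated fillings -/
theorem nearCompact_of [CompactSpace M] (hh : Height S h) (hT : S.Triangulated) :
    NearCompact S h where
  cpt := fun δ _ => (isClosed_le continuous_const hh.lip.continuous).isCompact
  tri := by
    intro ε hε
    obtain ⟨T⟩ := hT ε hε
    exact ⟨{
      V := T.V
      fin := T.fin
      dec := T.dec
      pos := T.pos
      T := T.T
      card_T := T.card_T
      mesh := T.mesh
      B := T.B
      B_sub := T.B_sub
      A := ∅
      A_sub := fun F hF => absurd hF (Finset.notMem_empty F)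
      A_far := fun F hF => absurd hF (Finset.notMem_empty F)
      A_closed := fun G _ hG => by
        obtain ⟨F, hF, _⟩ := hG
        exact absurd hF (Finset.notMem_empty F)
      face := fun F hF hex => by
        rcases T.face F hF hex with ⟨h1, h2⟩ | ⟨h1, h2⟩
        · exact Or.inl ⟨h1, h2, Finset.notMem_empty F⟩
        · exact Or.inr ⟨h1, Or.inl ⟨h2, Finset.notMem_empty F⟩⟩
      b := T.b
      b_spec := T.b_spec
      tile := T.tile }⟩

end

/-- the number `vol(B^(d+1)) (∫ sin^d / ∫ sin^(d+1))^(d+1)` -/
noncomputable def kap (d : ℕ) : ENNReal :=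
  volume (Metric.ball (0 : E (d + 1)) 1) * ENNReal.ofReal
    (((∫ t in (0 : ℝ)..Real.pi, Real.sin t ^ d) /
      ∫ t in (0 : ℝ)..Real.pi, Real.sin t ^ (d + 1)) ^ (d + 1))

/-- the volume of the round hemisphere of dimension `d + 1` -/
noncomputable def hemi (d : ℕ) : ENNReal :=
  (volume : Measure (EuclideanSpace ℝ (Fin (d + 2)))).toSphere Set.univ / 2

theorem nine {d : ℕ} (hd : 1 ≤ d) (M : Type) [MetricSpace M] [CompactSpace M] (S : Fill d M)
    (hS : S.NonShort) (hT : S.Triangulated) : ENNReal.ofReal (9 / 20) * hemi d ≤ S.vol := by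
  have h := Pool.Agent.TH253.FV.final d hd M S hS hT
  refine le_trans (le_of_eq ?_) h
  unfold hemi
  rw [ENNReal.div_eq_inv_mul, ← mul_assoc]
  congr 1
  rw [show (9 / 40 : ℝ) = 9 / 20 * (1 / 2) by norm_num, ENNReal.ofReal_mul (by norm_num)]
  congr 1
  rw [one_div, ENNReal.ofReal_inv_of_pos (by norm_num)]
  norm_num

theorem kapp {d : ℕ} (hd : 1 ≤ d) (M : Type) [MetricSpace M] [CompactSpace M] (S : Fill d M)
    (hS : S.NonShort) (hT : S.Triangulated ∨ S.NoRetraction) : kap d ≤ S.vol :=
  main_mod TGen.taskGen TEven.taskEven TParity.taskParity TCoverT.taskCoverT d hd M S hS hT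

section collar
variable {d : ℕ} {M : Type} [MetricSpace M]

/-- the function `π/2 - dist(q, boundary)` -/
noncomputable def depth (S : Fill d M) (q : M) : ℝ := Real.pi / 2 - infDist q (range S.bd)

theorem height_depth (S : Fill d M) : Height S (depth S) where
  lip := by
    refine LipschitzWith.of_dist_le_mul fun p q => ?_
    rw [NNReal.coe_one, one_mul, Real.dist_eq]
    unfold depth
    rw [sub_sub_sub_cancel_left, ← Real.dist_eq, dist_comm p q]
    have h1 := (lipschitz_infDist_pt (range S.bd)).dist_le_mul q p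
    rwa [NNReal.coe_one, one_mul] at h1
  sum := by
    intro x y
    unfold depth
    rw [infDist_zero_of_mem (mem_range_self x), infDist_zero_of_mem (mem_range_self y)]
    have := angle_le_pi (x : E (d + 1)) (y : E (d + 1))
    linarith

end collar

end Pool.Agent.Q146.FVC
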