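import Pool.Agent.Q146.FVC.Fill

/-!
# Triangulations of the near part, and the main theorem
-/

set_option autoImplicit false

open MeasureTheory Metric Set Filter Topology InnerProductGeometry

namespace Pool.Agent.Q146.FVC

open Pool.Agent.H241R3.FV

/-- A finite triangulation of mesh less than `ε` of a part of a space `M` with boundary sphere
`bd : S^d → M`: a finite set `V` of vertices with positions in `M`, a finite set `T` of simplices
with `d + 2` vertices, such that every set of `d + 1` vertices of a simplex belongs to exactly two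
simplices, or it belongs to exactly one simplex and is either a boundary face (element of `B`) or a
far face (element of `A`). The boundary faces triangulate the round sphere by geodesic simplices,
as in `Pool.Agent.H241R3.FV.Triang`; the function `h` is less than `ε` at the vertices of the far
faces, and every set of `d` vertices of a far face belongs to exactly two far faces. -/
structure PTriang {d : ℕ} {M : Type} [MetricSpace M] (bd : Sph (d + 1) → M) (h : M → ℝ)
    (ε : ℝ) where
  /-- vertices -/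
  V : Type
  fin : Fintype V
  dec : DecidableEq V
  /-- positions -/
  pos : V → M
  /-- simplices -/
  T : Finset (Finset V)
  card_T : ∀ σ ∈ T, σ.card = d + 2
  mesh : ∀ σ ∈ T, ∀ v ∈ σ, ∀ w ∈ σ, dist (pos v) (pos w) < ε
  /-- boundary faces -/
  B : Finset (Finset V)
  B_sub : ∀ F ∈ B, F.card = d + 1 ∧ ∃ σ ∈ T, F ⊆ σ
  /-- far faces -/
  A : Finset (Finset V)
  A_sub : ∀ F ∈ A, F.card = d + 1 ∧ ∃ σ ∈ T, F ⊆ σ
  A_far : ∀ F ∈ A, ∀ v ∈ F, h (pos v) < ε
  A_closed : ∀ G : Finset V, G.card = d → (∃ F ∈ A, G ⊆ F) → {F | F ∈ A ∧ G ⊆ F}.ncard = 2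
  face : ∀ F : Finset V, F.card = d + 1 → (∃ σ ∈ T, F ⊆ σ) →
    ({σ | σ ∈ T ∧ F ⊆ σ}.ncard = 2 ∧ F ∉ B ∧ F ∉ A) ∨
    ({σ | σ ∈ T ∧ F ⊆ σ}.ncard = 1 ∧ (F ∈ B ∧ F ∉ A ∨ F ∉ B ∧ F ∈ A))
  /-- the boundary vertices as points of the round sphere -/
  b : V → Sph (d + 1)
  b_spec : ∀ F ∈ B, ∀ v ∈ F, bd (b v) = pos v
  tile : ∀ᵐ y ∂(volume : Measure (E (d + 1))), ∃! F, F ∈ B ∧ y ∈ coneOf b F

section

variable {M : Type} [MetricSpace M] {h : M → ℝ}

/-- the inclusion of the simplices -/
def sm {V : Type} (F : Finset V) : Finset (Option V) := F.map Function.Embedding.some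

theorem sm_inj {V : Type} : Function.Injective (sm : Finset V → Finset (Option V)) :=
  Finset.map_injective _

theorem none_sm {V : Type} (F : Finset V) : (none : Option V) ∉ sm F := by
  simp [sm]

theorem mem_sm {V : Type} {F : Finset V} {v : V} : some v ∈ sm F ↔ v ∈ F := by
  simp [sm]

theorem sm_sub {V : Type} {F G : Finset V} : sm F ⊆ sm G ↔ F ⊆ G := Finset.map_subset_map

theorem sm_sub_ins {V : Type} {F G : Finset V} : sm F ⊆ Finset.insertNone G ↔ F ⊆ G := by
  constructor
  · intro h v hv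
    have := h (mem_sm.2 hv)
    simpa using this
  · intro h v hv
    rcases v with _ | v
    · simp
    · simpa using h (mem_sm.1 hv)

theorem ins_inj {V : Type} :
    Function.Injective (fun F : Finset V => Finset.insertNone F) := by
  intro F G h
  ext v
  have h1 := Finset.ext_iff.1 h (some v)
  simpa using h1

theorem ins_sub {V : Type} {F G : Finset V} :
    Finset.insertNone F ⊆ Finset.insertNone G ↔ F ⊆ G := by
  constructor
  · intro h v hv
    have := h (Finset.some_mem_insertNone.2 hv)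
    simpa using this
  · intro h v hv
    rcases v with _ | v
    · simp
    · have : v ∈ F := by simpa using hv
      simpa using h this

theorem exists_sm {V : Type} {F : Finset (Option V)} (h : none ∉ F) : ∃ G, F = sm G := by
  classical
  refine ⟨Finset.eraseNone F, ?_⟩
  ext v
  rcases v with _ | v
  · simp [h, none_sm]
  · rw [mem_sm]; simp

theorem exists_ins {V : Type} {F : Finset (Option V)} (h : none ∈ F) :
    ∃ G : Finset V, F = Finset.insertNone G := by
  classical
  refine ⟨Finset.eraseNone F, ?_⟩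
  ext v
  rcases v with _ | v
  · simp [h]
  · simp

/-- cone over the far faces -/
theorem triang_col (hh : LipschitzWith 1 h) {d : ℕ} {bd : Sph (d + 1) → M} {ε : ℝ}
    (P : PTriang bd h ε) (hε : 0 < ε) :
    Nonempty (@Triang d (Col h) (colMetric hh) (fun x => pj h (bd x)) (2 * ε)) := by
  classical
  letI := colMetric hh
  letI := P.fin
  letI := P.dec
  have x0 : Sph (d + 1) := ⟨EuclideanSpace.single 0 1, by simp⟩
  have hA : ∀ F ∈ P.A, ∀ σ ∈ P.T, sm σ ≠ Finset.insertNone F := by
    intro F _ σ _ h1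
    apply none_sm σ
    rw [h1]
    simp
  -- the elements containing a face without the far vertex
  have key1 : ∀ F : Finset P.V, F.card = d + 1 →
      {σ | σ ∈ (P.T.image sm ∪ P.A.image fun F => Finset.insertNone F) ∧ sm F ⊆ σ} =
        sm '' {σ | σ ∈ P.T ∧ F ⊆ σ} ∪
          (fun F : Finset P.V => Finset.insertNone F) '' {G | G ∈ P.A ∧ G = F} := by
    intro F hF
    ext σ
    simp only [Finset.mem_union, Finset.mem_image, mem_setOf_eq, mem_union, mem_image]
    constructor
    · rintro ⟨⟨τ, hτ, rfl⟩ | ⟨G, hG, rfl⟩, h2⟩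
      · left
        exact ⟨τ, ⟨hτ, sm_sub.1 h2⟩, rfl⟩
      · right
        have h3 := sm_sub_ins.1 h2
        have h4 := Finset.eq_of_subset_of_card_le h3 (by rw [(P.A_sub G hG).1, hF])
        exact ⟨G, ⟨hG, h4.symm⟩, rfl⟩
    · rintro (⟨τ, ⟨hτ, h2⟩, rfl⟩ | ⟨G, ⟨hG, rfl⟩, rfl⟩)
      · exact ⟨Or.inl ⟨τ, hτ, rfl⟩, sm_sub.2 h2⟩
      · exact ⟨Or.inr ⟨G, hG, rfl⟩, sm_sub_ins.2 (Finset.Subset.refl _)⟩
  have key1c : ∀ F : Finset P.V, F.card = d + 1 →
      {σ | σ ∈ (P.T.image sm ∪ P.A.image fun F => Finset.insertNone F) ∧ sm F ⊆ σ}.ncard =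
        {σ | σ ∈ P.T ∧ F ⊆ σ}.ncard + {G | G ∈ P.A ∧ G = F}.ncard := by
    intro F hF
    rw [key1 F hF, ncard_union_eq ?_ (toFinite _) (toFinite _), ncard_image_of_injective _ sm_inj,
      ncard_image_of_injective _ ins_inj]
    rw [disjoint_left]
    rintro σ ⟨τ, hτ, rfl⟩ ⟨G, hG, h3⟩
    exact hA G hG.1 τ hτ.1 h3.symm
  have key2 : ∀ G : Finset P.V,
      {σ | σ ∈ (P.T.image sm ∪ P.A.image fun F => Finset.insertNone F) ∧
        Finset.insertNone G ⊆ σ} =
        (fun F : Finset P.V => Finset.insertNone F) '' {F | F ∈ P.A ∧ G ⊆ F} := by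
    intro G
    ext σ
    simp only [Finset.mem_union, Finset.mem_image, mem_setOf_eq, mem_image]
    constructor
    · rintro ⟨⟨τ, hτ, rfl⟩ | ⟨F, hF, rfl⟩, h2⟩
      · exfalso
        apply none_sm τ
        apply h2
        simp
      · exact ⟨F, ⟨hF, ins_sub.1 h2⟩, rfl⟩
    · rintro ⟨F, ⟨hF, h2⟩, rfl⟩
      exact ⟨Or.inr ⟨F, hF, rfl⟩, ins_sub.2 h2⟩
  have hB : ∀ F : Finset P.V, sm F ∈ P.B.image sm ↔ F ∈ P.B := by
    intro F
    rw [Finset.mem_image]
    constructor
    · rintro ⟨G, hG, h2⟩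
      rwa [← sm_inj h2]
    · intro hF
      exact ⟨F, hF, rfl⟩
  have hcone : ∀ F : Finset P.V, coneOf (fun v : Option P.V => v.elim x0 P.b) (sm F) =
      coneOf P.b F := by
    intro F
    ext y
    constructor
    · rintro ⟨c, hc, hy⟩
      refine ⟨fun v => c (some v), fun v => hc _, ?_⟩
      rw [hy]
      unfold sm
      rw [Finset.sum_map]
      rfl
    · rintro ⟨c, hc, hy⟩
      refine ⟨fun v => v.elim 0 c, ?_, ?_⟩
      · rintro (_ | v)
        · exact le_rfl
        · exact hc v
      · rw [hy]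
        unfold sm
        rw [Finset.sum_map]
        rfl
  refine ⟨{
    V := Option P.V
    fin := inferInstance
    dec := inferInstance
    pos := fun v => v.elim Col.far fun v => pj h (P.pos v)
    T := P.T.image sm ∪ P.A.image fun F => Finset.insertNone F
    card_T := ?_
    mesh := ?_
    B := P.B.image sm
    B_sub := ?_
    face := ?_
    b := fun v => v.elim x0 P.b
    b_spec := ?_
    tile := ?_ }⟩
  · intro σ hσ
    rw [Finset.mem_union, Finset.mem_image, Finset.mem_image] at hσ
    rcases hσ with ⟨τ, hτ, rfl⟩ | ⟨F, hF, rfl⟩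
    · unfold sm
      rw [Finset.card_map, P.card_T τ hτ]
    · rw [Finset.card_insertNone, (P.A_sub F hF).1]
  · -- mesh
    have hm : ∀ σ ∈ P.T, ∀ v ∈ σ, ∀ w ∈ σ, dC h (pj h (P.pos v)) (pj h (P.pos w)) < 2 * ε := by
      intro σ hσ v hv w hw
      have h1 := P.mesh σ hσ v hv w hw
      have h2 := dC_pj_le hh (P.pos v) (P.pos w)
      linarith
    intro σ hσ v hv w hw
    rw [Finset.mem_union, Finset.mem_image, Finset.mem_image] at hσ
    rcases hσ with ⟨τ, hτ, rfl⟩ | ⟨F, hF, rfl⟩
    · rcases v with _ | v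
      · exact absurd hv (none_sm τ)
      rcases w with _ | w
      · exact absurd hw (none_sm τ)
      exact hm τ hτ v (mem_sm.1 hv) w (mem_sm.1 hw)
    · obtain ⟨_, σ, hσ, hFσ⟩ := P.A_sub F hF
      rcases v with _ | v <;> rcases w with _ | w
      · change dC h Col.far Col.far < 2 * ε
        simp only [dC]; linarith
      · have hw' : w ∈ F := by simpa using hw
        change dC h Col.far (pj h (P.pos w)) < 2 * ε
        have h1 : dC h (pj h (P.pos w)) Col.far ≤ ε :=
          dC_far_le hε.le (P.A_far F hF w hw').le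
        have h2 : dC h Col.far (pj h (P.pos w)) = dC h (pj h (P.pos w)) Col.far :=
          dist_comm (Col.far : Col h) (pj h (P.pos w))
        linarith
      · have hv' : v ∈ F := by simpa using hv
        change dC h (pj h (P.pos v)) Col.far < 2 * ε
        have h1 : dC h (pj h (P.pos v)) Col.far ≤ ε :=
          dC_far_le hε.le (P.A_far F hF v hv').le
        linarith
      · have hv' : v ∈ F := by simpa using hv
        have hw' : w ∈ F := by simpa using hw
        exact hm σ hσ v (hFσ hv') w (hFσ hw')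
  · intro F hF
    obtain ⟨G, hG, rfl⟩ := Finset.mem_image.1 hF
    obtain ⟨h1, σ, hσ, h2⟩ := P.B_sub G hG
    refine ⟨?_, sm σ, Finset.mem_union_left _ (Finset.mem_image_of_mem _ hσ), sm_sub.2 h2⟩
    unfold sm
    rw [Finset.card_map, h1]
  · -- faces
    intro F hF hex
    by_cases hn : none ∈ F
    · obtain ⟨G, rfl⟩ := exists_ins hn
      rw [Finset.card_insertNone] at hF
      obtain ⟨σ, hσ, hGσ⟩ := hex
      have hσ' : σ ∈ {σ | σ ∈ (P.T.image sm ∪ P.A.image fun F => Finset.insertNone F) ∧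
        Finset.insertNone G ⊆ σ} := ⟨hσ, hGσ⟩
      rw [key2 G] at hσ'
      obtain ⟨F, hF', -⟩ := hσ'
      left
      rw [key2 G, ncard_image_of_injective _ ins_inj]
      refine ⟨P.A_closed G (by omega) ⟨F, hF'⟩, ?_⟩
      intro hcon
      obtain ⟨H, _, h3⟩ := Finset.mem_image.1 hcon
      apply none_sm H
      rw [h3]
      simp
    · obtain ⟨G, rfl⟩ := exists_sm hn
      have hG : G.card = d + 1 := by
        unfold sm at hF
        rwa [Finset.card_map] at hF
      have hex' : ∃ σ ∈ P.T, G ⊆ σ := by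
        obtain ⟨σ, hσ, hGσ⟩ := hex
        rw [Finset.mem_union, Finset.mem_image, Finset.mem_image] at hσ
        rcases hσ with ⟨τ, hτ, rfl⟩ | ⟨F, hF', rfl⟩
        · exact ⟨τ, hτ, sm_sub.1 hGσ⟩
        · obtain ⟨_, σ, hσ, hFσ⟩ := P.A_sub F hF'
          exact ⟨σ, hσ, (sm_sub_ins.1 hGσ).trans hFσ⟩
      rw [key1c G hG, hB]
      have hc0 : G ∉ P.A → {F | F ∈ P.A ∧ F = G}.ncard = 0 := by
        intro hGA
        have : {F | F ∈ P.A ∧ F = G} = ∅ := by
          ext F
          simp only [mem_setOf_eq, mem_empty_iff_false, iff_false, not_and]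
          rintro h3 rfl
          exact hGA h3
        rw [this, ncard_empty]
      have hc1 : G ∈ P.A → {F | F ∈ P.A ∧ F = G}.ncard = 1 := by
        intro hGA
        have : {F | F ∈ P.A ∧ F = G} = {G} := by
          ext F
          simp only [mem_setOf_eq, mem_singleton_iff]
          exact ⟨fun h => h.2, fun h => ⟨by rw [h]; exact hGA, h⟩⟩
        rw [this, ncard_singleton]
      rcases P.face G hG hex' with ⟨h1, h2, h3⟩ | ⟨h1, ⟨h2, h3⟩ | ⟨h2, h3⟩⟩
      · left
        rw [h1, hc0 h3]
        exact ⟨rfl, h2⟩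
      · right
        rw [h1, hc0 h3]
        exact ⟨rfl, h2⟩
      · left
        rw [h1, hc1 h3]
        exact ⟨rfl, h2⟩
  · intro F hF v hv
    obtain ⟨G, hG, rfl⟩ := Finset.mem_image.1 hF
    rcases v with _ | v
    · exact absurd hv (none_sm G)
    · change pj h (bd (P.b v)) = pj h (P.pos v)
      rw [P.b_spec G hG v (mem_sm.1 hv)]
  · filter_upwards [P.tile] with y hy
    obtain ⟨F, ⟨hF, hyF⟩, huniq⟩ := hy
    refine ⟨sm F, ⟨Finset.mem_image_of_mem _ hF, ?_⟩, ?_⟩
    · rw [hcone]; exact hyF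
    · rintro G ⟨hG, hyG⟩
      obtain ⟨G', hG', rfl⟩ := Finset.mem_image.1 hG
      rw [hcone] at hyG
      rw [huniq G' ⟨hG', hyG⟩]

end

end Pool.Agent.Q146.FVC
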